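import Pool.Agent.H221.TW.Stm

/-!
Project TW (helper179): affine normalisation of a body with an axis
-/

set_option autoImplicit false

namespace Pool.Agent.H179.TW

open Pool.Agent.H332.HT (V2 V3 det P IP T C Full Good Bi)
open Pool.Agent.H165.HW (GB Par)
open Pool.Agent.H221.TW

theorem coord (h : V3 →ₗ[ℝ] ℝ) (d : V3) (hd : h d = 2) :
    ∃ A : V3 ≃ₗ[ℝ] V3, (∀ x, h (A x) = x.2) ∧ A (0, 1) = (1 / 2 : ℝ) • d := by
  have hne : h ≠ 0 := by
    rintro rfl
    simp at hd
  have hf : Module.finrank ℝ V2 = Module.finrank ℝ (LinearMap.ker h) := by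
    have h1 := Module.Dual.finrank_ker_add_one_of_ne_zero (f := h) hne
    have h2 : Module.finrank ℝ V3 = 3 := by simp
    have h3 : Module.finrank ℝ V2 = 2 := by simp
    omega
  let e : V2 ≃ₗ[ℝ] LinearMap.ker h := LinearEquiv.ofFinrankEq _ _ hf
  let A : V3 →ₗ[ℝ] V3 := LinearMap.coprod ((LinearMap.ker h).subtype ∘ₗ e.toLinearMap)
    ((1 / 2 : ℝ) • LinearMap.toSpanSingleton ℝ V3 d)
  have hA : ∀ x : V3, A x = (e x.1 : V3) + (1 / 2 : ℝ) • x.2 • d := by
    intro x
    simp [A, LinearMap.coprod_apply]
  have hh : ∀ x : V3, h (A x) = x.2 := by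
    intro x
    rw [hA, map_add, LinearMap.mem_ker.1 (e x.1).2, map_smul, map_smul, hd, smul_eq_mul, smul_eq_mul]
    ring
  have hinj : Function.Injective A := by
    rw [← LinearMap.ker_eq_bot, LinearMap.ker_eq_bot']
    intro x hx
    have h2 : x.2 = 0 := by rw [← hh x, hx, map_zero]
    have h3 := hA x
    rw [hx, h2, zero_smul, smul_zero, add_zero] at h3
    have h4 : e x.1 = 0 := Subtype.ext h3.symm
    have h5 : x.1 = 0 := by simpa using h4
    exact Prod.ext h5 h2
  refine ⟨LinearEquiv.ofInjectiveEndo A hinj, fun x => ?_, ?_⟩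
  · exact hh x
  · show A (0, 1) = _
    rw [hA]
    simp

theorem ax : S_ax := by
  intro hI K hcp hcv h N S w hx
  obtain ⟨hN, hS, hhN, hhS, hlt, hseg, hint, hcen, hsep, hful⟩ := hx
  set c : ℝ := (h N - h S) / 2 with hc
  have hc0 : 0 < c := by rw [hc]; linarith
  set d : V3 := N - S with hd
  set M : V3 := (1 / 2 : ℝ) • (N + S) with hM
  obtain ⟨A, hA1, hA2⟩ := coord ((1 / c) • h) d (by
    rw [LinearMap.smul_apply, hd, map_sub, smul_eq_mul, hc]
    have : h N - h S ≠ 0 := by linarith
    field_simp)
  have hA1' : ∀ x, h (A x) = c * x.2 := by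
    intro x
    have := hA1 x
    rw [LinearMap.smul_apply, smul_eq_mul] at this
    rw [← this]
    field_simp
  have hA3 : ∀ z : ℝ, A (0, z) = (z / 2) • d := by
    intro z
    have h1 : ((0, z) : V3) = z • ((0, 1) : V3) := by
      ext <;> simp
    rw [h1, map_smul, hA2, smul_smul]
    congr 1
    ring
  have hMN : M + (1 / 2 : ℝ) • d = N := by
    rw [hM, hd]; module
  have hMS : M - (1 / 2 : ℝ) • d = S := by
    rw [hM, hd]; module
  have hhM1 : h N = h M + c := by
    rw [hM, map_smul, map_add, smul_eq_mul, hc]; ring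
  have hhM2 : h S = h M - c := by
    rw [hM, map_smul, map_add, smul_eq_mul, hc]; ring
  let ψ : V3 ≃ₜ V3 := (A.toContinuousLinearEquiv.toHomeomorph).trans (Homeomorph.addLeft M)
  have hψ : ∀ x, ψ x = M + A x := fun x => rfl
  let K' : Set V3 := ψ ⁻¹' K
  have hK' : ∀ x, x ∈ K' ↔ M + A x ∈ K := fun x => Iff.rfl
  have hiK' : ∀ x, x ∈ interior K' ↔ M + A x ∈ interior K := by
    intro x
    show x ∈ interior (ψ ⁻¹' K) ↔ _
    rw [← ψ.preimage_interior]
    rfl
  -- the centre
  obtain ⟨a, b, ha, hb, hab, hw⟩ := hseg
  have hwA : w = M + A (0, a - b) := by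
    rw [hA3, ← hw, hM, hd]
    have hb' : b = 1 - a := by linarith
    subst hb'
    module
  have hMint : M ∈ interior K := by
    rcases lt_trichotomy a b with h1 | h1 | h1
    · -- w is closer to S, M between w and N
      have h2 := hcv.combo_interior_self_mem_interior hint hN (a := 1 / (1 + (b - a)))
        (b := (b - a) / (1 + (b - a))) (by positivity) (by
          have : 0 < b - a := by linarith
          positivity) (by
          have : (1 + (b - a)) ≠ 0 := by linarith
          field_simp)
      have h3 : (1 / (1 + (b - a))) • w + ((b - a) / (1 + (b - a))) • N = M := by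
        rw [← hw, hM]
        have hb' : b = 1 - a := by linarith
        subst hb'
        have h5 : (1 + (1 - a - a)) ≠ 0 := by linarith
        have h4 : (1 + (1 - a - a)) • ((1 / (1 + (1 - a - a))) • (a • N + (1 - a) • S) +
            ((1 - a - a) / (1 + (1 - a - a))) • N) = (1 + (1 - a - a)) • ((1 / 2 : ℝ) • (N + S)) := by
          rw [smul_add, smul_smul, smul_smul, mul_div_cancel₀ _ h5, mul_div_cancel₀ _ h5]
          module
        exact smul_right_injective _ h5 h4
      rwa [h3] at h2
    · have h2 : w = M := by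
        rw [← hw, hM]
        have ha' : a = 1 / 2 := by linarith
        have hb' : b = 1 / 2 := by linarith
        rw [ha', hb', smul_add]
      exact h2 ▸ hint
    · have h2 := hcv.combo_interior_self_mem_interior hint hS (a := 1 / (1 + (a - b)))
        (b := (a - b) / (1 + (a - b))) (by
          have : 0 < a - b := by linarith
          positivity) (by
          have : 0 < a - b := by linarith
          positivity) (by
          have : (1 + (a - b)) ≠ 0 := by linarith
          field_simp)
      have h3 : (1 / (1 + (a - b))) • w + ((a - b) / (1 + (a - b))) • S = M := by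
        rw [← hw, hM]
        have hb' : b = 1 - a := by linarith
        subst hb'
        have h5 : (1 + (a - (1 - a))) ≠ 0 := by linarith
        have h4 : (1 + (a - (1 - a))) • ((1 / (1 + (a - (1 - a)))) • (a • N + (1 - a) • S) +
            ((a - (1 - a)) / (1 + (a - (1 - a)))) • S) =
              (1 + (a - (1 - a))) • ((1 / 2 : ℝ) • (N + S)) := by
          rw [smul_add, smul_smul, smul_smul, mul_div_cancel₀ _ h5, mul_div_cancel₀ _ h5]
          module
        exact smul_right_injective _ h5 h4
      rwa [h3] at h2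
  -- points over the interior of the shadow
  have hov : ∀ x : V3, Ov K d (M + A x) → x.1 ∈ IP K' := by
    rintro x ⟨s, hs⟩
    have h1 : ((x.1, x.2 + 2 * s) : V3) ∈ interior K' := by
      rw [hiK']
      have h2 : ((x.1, x.2 + 2 * s) : V3) = x + (0, 2 * s) := by
        ext <;> simp
      rw [h2, map_add, hA3, ← add_assoc]
      have h3 : 2 * s / 2 = s := by ring
      rw [h3]
      exact hs
    have h4 : IsOpen (Prod.fst '' interior K') := isOpenMap_fst _ isOpen_interior
    exact interior_maximal (Set.image_mono interior_subset) h4 ⟨_, h1, rfl⟩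
  have hGB : GB (31 / 10) K' := by
    refine ⟨?_, ?_, ?_, ?_, ?_, ?_, ?_⟩
    · exact ψ.isCompact_preimage.2 hcp
    · intro x hx y hy s t hs ht hst
      rw [hK'] at hx hy ⊢
      have h1 := hcv hx hy hs ht hst
      have h2 : s • (M + A x) + t • (M + A y) = M + A (s • x + t • y) := by
        rw [map_add, map_smul, map_smul]
        have ht' : t = 1 - s := by linarith
        subst ht'
        module
      rwa [h2] at h1
    · intro p z hz
      rw [hK'] at hz
      have h1 := hhN _ hz
      have h2 := hhS _ hz
      rw [map_add, hA1'] at h1 h2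
      simp only at h1 h2
      rw [abs_le]
      constructor <;> nlinarith
    · rw [hK', hA3]
      rw [hMN]; exact hN
    · rw [hK', hA3]
      have : M + (-1 / 2 : ℝ) • d = S := by rw [← hMS]; module
      rw [this]; exact hS
    · rw [hiK', map_zero, add_zero]
      exact hMint
    · rintro _ ⟨x, hx, rfl⟩
      rw [hK'] at hx
      have h1 := hcen _ hx
      refine ⟨(0, a - b) - (10 / (31 : ℝ)) • (x - (0, a - b)), ?_, ?_⟩
      · rw [hK']
        have h2 : w - (10 / (31 : ℝ)) • (M + A x - w) =
            M + A ((0, a - b) - (10 / (31 : ℝ)) • (x - (0, a - b))) := by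
          rw [hwA, map_sub, map_smul, map_sub]
          module
        rwa [h2] at h1
      · simp
  have hSep : Sep K' := by
    rcases hsep with ⟨m, hm1, ⟨v, hv1, hv2⟩, hm2, hm3⟩ | h0
    · left
      have hmd : m d = 0 := by rw [hd, map_sub, hm1, sub_self]
      have hmM : m M = m N := by rw [hM, map_smul, map_add, hm1, smul_eq_mul]; ring
      have hmM' : m M = m S := by rw [hmM, hm1]
      have hmA : ∀ x : V3, m (A x) = m (A (x.1, 0)) := by
        intro x
        have h2 : x = (x.1, 0) + (0, x.2) := by
          ext <;> simp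
        conv_lhs => rw [h2, map_add, map_add, hA3, map_smul, hmd, smul_zero, add_zero]
      refine ⟨m ∘ₗ A.toLinearMap ∘ₗ LinearMap.inl ℝ V2 ℝ, ?_, ?_, ?_⟩
      · intro h1
        apply hv2
        have h2 := hA1' (A.symm v)
        rw [LinearEquiv.apply_symm_apply, hv1] at h2
        have h3 : (A.symm v).2 = 0 := by
          rcases mul_eq_zero.1 h2.symm with h4 | h4
          · exact absurd h4 hc0.ne'
          · exact h4
        have h4 := LinearMap.congr_fun h1 (A.symm v).1
        simp only [LinearMap.comp_apply, LinearMap.inl_apply, LinearEquiv.coe_coe,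
          LinearMap.zero_apply] at h4
        rw [← hmA, LinearEquiv.apply_symm_apply] at h4
        exact h4
      · intro p hp hpi
        simp only [LinearMap.comp_apply, LinearMap.inl_apply, LinearEquiv.coe_coe]
        rw [hK'] at hp
        rcases hm2 _ hp (by rw [map_add, hA1', hhM1]; simp) with h1 | h1
        · rw [map_add, hmA, hmM] at h1
          simp only at h1
          linarith
        · exact absurd (hov _ h1) hpi
      · intro p hp hpi
        simp only [LinearMap.comp_apply, LinearMap.inl_apply, LinearEquiv.coe_coe]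
        rw [hK'] at hp
        rcases hm3 _ hp (by rw [map_add, hA1', hhM2]; simp; ring) with h1 | h1
        · rw [map_add, hmA, hmM'] at h1
          simp only at h1
          linarith
        · exact absurd (hov _ h1) hpi
    · right
      intro p hp
      rw [hK'] at hp
      exact hov _ (h0 _ hp (by rw [map_add, hA1', hhM1]; simp))
  have hFul : ∀ p : V2, Full K' p → p ∈ IP K' := by
    rintro p ⟨h1, h2⟩
    rw [hK'] at h1 h2
    refine hov (p, 1) (hful _ h1 (by rw [map_add, hA1', hhM1]; simp) ?_)
    have h3 : M + A (p, 1) - d = M + A (p, -1) := by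
      have h4 : ((p, 1) : V3) = (p, -1) + (0, 2) := by
        ext <;> simp; norm_num
      rw [h4, map_add, hA3]
      have h5 : (2 : ℝ) / 2 = 1 := by norm_num
      rw [h5, one_smul]
      abel
    rw [h3]
    exact h2
  obtain ⟨L, hL⟩ := hI K' hGB hSep hFul
  refine ⟨fun i => A (L i), fun x hx hxi => ?_⟩
  have e1 : M + A (A.symm (x - M)) = x := by
    rw [LinearEquiv.apply_symm_apply]; abel
  obtain ⟨i, t, ht, hti⟩ := hL (A.symm (x - M)) (by rw [hK', e1]; exact hx)
    (by rw [hiK', e1]; exact hxi)
  refine ⟨i, t, ht, ?_⟩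
  rw [hiK', map_add, map_smul, ← add_assoc, e1] at hti
  exact hti

end Pool.Agent.H179.TW

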