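import Pool.Agent.H221.TW.Stm

/-!
Project TW (helper179): the axis for a body of large asymmetry
-/

set_option autoImplicit false

namespace Pool.Agent.H179.TW

open Pool.Agent.H332.HT (V2 V3 det P IP T C Full Good Bi)
open Pool.Agent.H165.HW (GB Par)
open Pool.Agent.H221.TW

variable {K : Set V3} {lam : ℝ} {n : Fin 4 → V3 →ₗ[ℝ] ℝ} {a : Fin 4 → ℝ}

theorem mc_ge (hM : MC K lam n a) (i : Fin 4) (y : V3) (hy : y ∈ K) : -lam ≤ n i y := by
  have h0 : 0 < lam := lt_of_lt_of_le one_pos hM.one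
  have h1 := hM.le i _ (hM.cen y hy)
  rw [map_neg, map_smul, smul_eq_mul] at h1
  have h2 : 1 / lam * n i y = n i y / lam := by ring
  rw [h2] at h1
  have h3 : -1 ≤ n i y / lam := by linarith
  rw [le_div_iff₀ h0] at h3
  linarith

theorem mc_wt (hM : MC K lam n a) (b : Fin 4 → ℝ) (hb : ∀ i, 0 ≤ b i)
    (hz : ∑ i, b i • n i = 0) (i : Fin 4) : (1 + lam) * b i ≤ ∑ j, b j := by
  obtain ⟨q, hq, hqi⟩ := hM.far i
  have h1 : ∑ j, b j * n j q = 0 := by
    have h2 := LinearMap.congr_fun hz q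
    simpa [LinearMap.sum_apply, LinearMap.smul_apply] using h2
  have h3 : ∑ j, b j * (1 - n j q) = ∑ j, b j := by
    simp only [mul_sub, mul_one, Finset.sum_sub_distrib, h1, sub_zero]
  rw [← h3]
  have h4 : (1 + lam) * b i = b i * (1 - n i q) := by rw [hqi]; ring
  rw [h4]
  exact Finset.single_le_sum (f := fun j => b j * (1 - n j q))
    (fun j _ => mul_nonneg (hb j) (by linarith [hM.le j q hq])) (Finset.mem_univ i)

theorem mc_pos (hM : MC K lam n a) (h2 : 2 < lam) (i : Fin 4) : 0 < a i := by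
  have h1 : ∀ j, a j ≤ 1 / 3 - (lam - 2) / (3 * (1 + lam)) := by
    intro j
    have h3 := mc_wt hM a hM.nn hM.zero j
    rw [hM.sum] at h3
    have h4 : (1 : ℝ) / 3 - (lam - 2) / (3 * (1 + lam)) = 1 / (1 + lam) := by
      have : (1 + lam) ≠ 0 := by linarith
      field_simp
      ring
    rw [h4, le_div_iff₀ (by linarith)]
    linarith
  have h5 := hM.sum
  have h6 : 0 < (lam - 2) / (3 * (1 + lam)) := by
    apply div_pos <;> linarith
  rw [Fin.sum_univ_four] at h5
  have e0 := h1 0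
  have e1 := h1 1
  have e2 := h1 2
  have e3 := h1 3
  fin_cases i <;> simp only [Fin.zero_eta, Fin.mk_one, Fin.reduceFinMk] <;> linarith

theorem mc_rank (hM : MC K lam n a) (h2 : 2 < lam) (c : Fin 4 → ℝ)
    (hc : ∑ i, c i • n i = 0) : ∃ s : ℝ, ∀ i, c i = s * a i := by
  obtain ⟨k, hk⟩ := Finite.exists_min fun i => c i / a i
  have hp := mc_pos hM h2
  set s := c k / a k with hs
  have hb : ∀ i, 0 ≤ c i - s * a i := by
    intro i
    have h3 := hk i
    rw [le_div_iff₀ (hp i)] at h3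
    linarith
  have hbk : c k - s * a k = 0 := by
    rw [hs, div_mul_cancel₀ _ (hp k).ne', sub_self]
  have hz : ∑ i, (c i - s * a i) • n i = 0 := by
    refine LinearMap.ext fun x => ?_
    have e1 : ∑ i, c i * n i x = 0 := by
      have h4 := LinearMap.congr_fun hc x
      simpa [LinearMap.sum_apply, LinearMap.smul_apply] using h4
    have e2 : ∑ i, a i * n i x = 0 := by
      have h4 := LinearMap.congr_fun hM.zero x
      simpa [LinearMap.sum_apply, LinearMap.smul_apply] using h4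
    simp only [LinearMap.sum_apply, LinearMap.smul_apply, smul_eq_mul, LinearMap.zero_apply,
      sub_mul, Finset.sum_sub_distrib, e1, mul_assoc, ← Finset.mul_sum, e2, mul_zero, sub_zero]
  have hw := mc_wt hM (fun i => c i - s * a i) hb hz
  refine ⟨s, fun i => ?_⟩
  simp only [Fin.sum_univ_four] at hw
  have w0 := hw 0
  have w1 := hw 1
  have w2 := hw 2
  have w3 := hw 3
  have b0 := hb 0
  have b1 := hb 1
  have b2 := hb 2
  have b3 := hb 3
  have hbi := hb i
  -- the sum is zero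
  have hS : (c 0 - s * a 0) + (c 1 - s * a 1) + (c 2 - s * a 2) + (c 3 - s * a 3) = 0 := by
    set S := (c 0 - s * a 0) + (c 1 - s * a 1) + (c 2 - s * a 2) + (c 3 - s * a 3) with hSd
    have hS0 : 0 ≤ S := by linarith
    by_contra hne
    have hS1 : 0 < S := lt_of_le_of_ne hS0 (Ne.symm hne)
    have h5 : (1 + lam) * S ≤ 3 * S := by
      fin_cases k <;> simp only [Fin.zero_eta, Fin.mk_one, Fin.reduceFinMk] at hbk <;>
        rw [hSd] at * <;> nlinarith
    nlinarith
  have : c i - s * a i = 0 := by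
    fin_cases i <;> simp only [Fin.zero_eta, Fin.mk_one, Fin.reduceFinMk] at hbi ⊢ <;> linarith
  linarith

theorem mc_span (hM : MC K lam n a) (h2 : 2 < lam) (g : V3 →ₗ[ℝ] ℝ) :
    ∃ c : Fin 4 → ℝ, g = ∑ i, c i • n i := by
  let Φ : (Fin 4 → ℝ) →ₗ[ℝ] (V3 →ₗ[ℝ] ℝ) := Fintype.linearCombination ℝ n
  have hΦ : ∀ c, Φ c = ∑ i, c i • n i := fun c => Fintype.linearCombination_apply ℝ n c
  have hker : LinearMap.ker Φ ≤ Submodule.span ℝ {a} := by
    intro c hc
    rw [LinearMap.mem_ker, hΦ] at hc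
    obtain ⟨s, hs⟩ := mc_rank hM h2 c hc
    rw [Submodule.mem_span_singleton]
    refine ⟨s, ?_⟩
    ext i
    rw [hs i]
    rfl
  have ha0 : a ≠ 0 := fun h => by
    have := mc_pos hM h2 0
    rw [h] at this
    simp at this
  have h3 : Module.finrank ℝ (LinearMap.ker Φ) ≤ 1 :=
    (Submodule.finrank_mono hker).trans (finrank_span_singleton ha0).le
  have h4 := LinearMap.finrank_range_add_finrank_ker Φ
  have h5 : Module.finrank ℝ (Fin 4 → ℝ) = 4 := by simp
  have h6 : Module.finrank ℝ (V3 →ₗ[ℝ] ℝ) = 3 := by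
    have := Subspace.dual_finrank_eq (K := ℝ) (V := V3)
    have h7 : Module.finrank ℝ V3 = 3 := by simp
    rw [h7] at this
    exact this
  have h7 : Module.finrank ℝ (LinearMap.range Φ) ≤ Module.finrank ℝ (V3 →ₗ[ℝ] ℝ) :=
    Submodule.finrank_le _
  have h8 : LinearMap.range Φ = ⊤ := Submodule.eq_top_of_finrank_eq (by omega)
  have h9 : g ∈ LinearMap.range Φ := h8 ▸ Submodule.mem_top
  obtain ⟨c, hc⟩ := h9
  exact ⟨c, by rw [← hc, hΦ]⟩

theorem wt_le (G τ : Fin 4 → ℝ) (hτ : ∀ i, 0 ≤ τ i) (hs : ∑ i, τ i = 1) (M : ℝ)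
    (hM : ∀ i, G i ≤ M) (i : Fin 4) (e : ℝ) (he : τ i = 1 - e) :
    ∑ j, G j * τ j ≤ (1 - e) * G i + e * M := by
  have h1 : (M - G i) * τ i ≤ ∑ j, (M - G j) * τ j :=
    Finset.single_le_sum (f := fun j => (M - G j) * τ j)
      (fun j _ => mul_nonneg (by linarith [hM j]) (hτ j)) (Finset.mem_univ i)
  have h2 : ∑ j, (M - G j) * τ j = M - ∑ j, G j * τ j := by
    simp only [sub_mul, Finset.sum_sub_distrib, ← Finset.mul_sum, hs, mul_one]
  rw [h2, he] at h1
  linarith

theorem wt_ge (G τ : Fin 4 → ℝ) (hτ : ∀ i, 0 ≤ τ i) (hs : ∑ i, τ i = 1) (m : ℝ)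
    (hm : ∀ i, m ≤ G i) (i : Fin 4) (e : ℝ) (he : τ i = 1 - e) :
    (1 - e) * G i + e * m ≤ ∑ j, G j * τ j := by
  have h := wt_le (fun j => - G j) τ hτ hs (-m) (fun j => by linarith [hm j]) i e he
  have h2 : ∑ j, (- G j) * τ j = - ∑ j, G j * τ j := by
    simp only [neg_mul, Finset.sum_neg_distrib]
  rw [h2] at h
  linarith

theorem exB (hplc : S_plc) : ∀ (K : Set V3) (lam : ℝ) (n : Fin 4 → V3 →ₗ[ℝ] ℝ) (a : Fin 4 → ℝ),
    MC K lam n a → 2 < lam → ∃ (i : Fin 4) (p : V3), p ∈ K ∧ n i p = -lam ∧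
      ∀ x ∈ K, n i x = -lam → x - p ∈ interior K := by
  intro K lam n a hM h2
  have h0 : 0 < lam := by linarith
  obtain ⟨i, hi⟩ := Finite.exists_max a
  obtain ⟨q, hq, hqi⟩ := hM.far i
  have hap := mc_pos hM h2
  -- the far face and its planar centre
  let F : Set V3 := K ∩ {y | n i y = -lam}
  have hFc : IsCompact F := hM.cpt.inter_right
    (isClosed_eq (LinearMap.continuous_of_finiteDimensional (n i)) continuous_const)
  have hFv : Convex ℝ F := hM.cvx.inter (convex_hyperplane (n i).isLinear (-lam))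
  have hn0 : n i ≠ 0 := by
    intro h
    rw [h, LinearMap.zero_apply] at hqi
    linarith
  obtain ⟨p, hpF, hp⟩ := hplc F hFc hFv ⟨q, hq, hqi⟩ (n i) hn0 (-lam) (fun y hy => hy.2)
  refine ⟨i, p, hpF.1, hpF.2, fun x hx hxi => ?_⟩
  by_contra hno
  obtain ⟨f, hf⟩ := geometric_hahn_banach_open_point hM.cvx.interior isOpen_interior hno
  have hγ : 0 < f (x - p) := by
    have := hf 0 hM.int
    rwa [map_zero] at this
  set γ := f (x - p) with hγd
  have hfK : ∀ y ∈ K, f y ≤ γ := by
    intro y hy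
    by_contra hlt
    push Not at hlt
    have hfy : 0 < f y := hγ.trans hlt
    have h3 : (γ / f y) • y ∈ interior K := by
      have h4 := hM.cvx.combo_interior_self_mem_interior hM.int hy (a := 1 - γ / f y)
        (b := γ / f y) (by rw [sub_pos, div_lt_one hfy]; exact hlt) (by positivity) (by ring)
      rwa [smul_zero, zero_add] at h4
    have h5 := hf _ h3
    rw [map_smul, smul_eq_mul, div_mul_cancel₀ _ hfy.ne'] at h5
    exact lt_irrefl _ h5
  have hfK' : ∀ y ∈ K, -(lam * γ) ≤ f y := by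
    intro y hy
    have h3 := hfK _ (hM.cen y hy)
    rw [map_neg, map_smul, smul_eq_mul] at h3
    have h4 : 1 / lam * f y = f y / lam := by ring
    rw [h4] at h3
    have h5 : -γ ≤ f y / lam := by linarith
    rw [le_div_iff₀ h0] at h5
    linarith
  -- barycentric coordinates
  obtain ⟨c, hc⟩ := mc_span hM h2 (f : V3 →ₗ[ℝ] ℝ)
  let G : Fin 4 → ℝ := fun j => (∑ k, c k) - c j / a j
  let t : V3 → Fin 4 → ℝ := fun y j => a j * (1 - n j y)
  have htn : ∀ y ∈ K, ∀ j, 0 ≤ t y j := fun y hy j =>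
    mul_nonneg (hM.nn j) (by linarith [hM.le j y hy])
  have hts : ∀ y, ∑ j, t y j = 1 := by
    intro y
    have h3 : ∑ j, a j * n j y = 0 := by
      have h4 := LinearMap.congr_fun hM.zero y
      simpa [LinearMap.sum_apply, LinearMap.smul_apply] using h4
    simp only [t, mul_sub, mul_one, Finset.sum_sub_distrib, h3, hM.sum, sub_zero]
  have hfG : ∀ y, f y = ∑ j, G j * t y j := by
    intro y
    have h3 : ∑ j, G j * t y j = ∑ j, ((∑ k, c k) * t y j - c j + c j * n j y) := by
      refine Finset.sum_congr rfl fun j _ => ?_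
      simp only [G, t]
      have := (hap j).ne'
      field_simp
      ring
    have h4 : f y = ∑ j, c j * n j y := by
      have h5 := LinearMap.congr_fun hc y
      simpa [LinearMap.sum_apply, LinearMap.smul_apply] using h5
    rw [h3, Finset.sum_add_distrib, Finset.sum_sub_distrib, ← Finset.mul_sum, hts, mul_one,
      sub_self, zero_add, h4]
  let ε : Fin 4 → ℝ := fun j => 1 - (1 + lam) * a j
  have hε0 : ∀ j, 0 ≤ ε j := by
    intro j
    have h3 := mc_wt hM a hM.nn hM.zero j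
    rw [hM.sum] at h3
    simp only [ε]
    linarith
  have hεs : ∑ j, ε j = 3 - lam := by
    simp only [ε, Finset.sum_sub_distrib, ← Finset.mul_sum, hM.sum]
    simp
    ring
  have hεi : ∀ j, ε i ≤ ε j := by
    intro j
    have := hi j
    simp only [ε]
    nlinarith
  have htF : ∀ j, ∀ y : V3, n j y = -lam → t y j = 1 - ε j := by
    intro j y hy
    simp only [t, ε, hy]
    ring
  obtain ⟨J, hJ⟩ := Finite.exists_max G
  obtain ⟨L, hL⟩ := Finite.exists_min G
  -- x and p
  have hx' := hp x ⟨hx, hxi⟩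
  set x' := p - (1 / (2 : ℝ)) • (x - p) with hx'd
  have hxx : f (x - p) = 2 / 3 * (f x - f x') := by
    rw [hx'd, map_sub, map_sub, map_smul, map_sub, smul_eq_mul]
    ring
  have h3 : f x ≤ (1 - ε i) * G i + ε i * G J := by
    rw [hfG x]
    exact wt_le G (t x) (htn x hx) (hts x) (G J) hJ i (ε i) (htF i x hxi)
  have h4 : (1 - ε i) * G i + ε i * G L ≤ f x' := by
    rw [hfG x']
    exact wt_ge G (t x') (htn x' hx'.1) (hts x') (G L) hL i (ε i) (htF i x' hx'.2)
  have h5 : γ ≤ 2 / 3 * (ε i * (G J - G L)) := by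
    rw [hγd, hxx]
    nlinarith
  -- the maximum and the minimum
  obtain ⟨y, hy, hyJ⟩ := hM.far J
  obtain ⟨z, hz, hzL⟩ := hM.far L
  have h6 : (1 - ε J) * G J + ε J * G L ≤ γ := by
    refine le_trans ?_ (hfK y hy)
    rw [hfG y]
    exact wt_ge G (t y) (htn y hy) (hts y) (G L) hL J (ε J) (htF J y hyJ)
  have h7 : -(lam * γ) ≤ (1 - ε L) * G L + ε L * G J := by
    refine le_trans (hfK' z hz) ?_
    rw [hfG z]
    exact wt_le G (t z) (htn z hz) (hts z) (G J) hJ L (ε L) (htF L z hzL)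
  have hD0 : 0 ≤ G J - G L := by linarith [hJ L]
  have hD : 0 < G J - G L := by
    rcases hD0.lt_or_eq with h8 | h8
    · exact h8
    · rw [← h8] at h5
      linarith
  have hJL : J ≠ L := by
    rintro rfl
    simp at hD
  have h8 : (ε J - ε i) + (ε L - ε i) ≤ 3 - lam - 4 * ε i := by
    have h9 : ∑ j ∈ ({J, L} : Finset (Fin 4)), (ε j - ε i) ≤ ∑ j, (ε j - ε i) :=
      Finset.sum_le_sum_of_subset_of_nonneg (Finset.subset_univ _)
        (fun j _ _ => by linarith [hεi j])
    rw [Finset.sum_pair hJL, Finset.sum_sub_distrib, hεs] at h9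
    simpa using h9
  have h9 : 4 * ε i ≤ 3 - lam := by linarith [hεi J, hεi L]
  have h10 : (G J - G L) * (1 - ε J - ε L) ≤ (1 + lam) * γ := by nlinarith
  have h11 : (G J - G L) * (lam - 2 + 2 * ε i) ≤ (G J - G L) * (1 - ε J - ε L) :=
    mul_le_mul_of_nonneg_left (by linarith) hD.le
  have h12 : (1 + lam) * γ ≤ (1 + lam) * (2 / 3 * (ε i * (G J - G L))) :=
    mul_le_mul_of_nonneg_left h5 (by linarith)
  have h13 : (G J - G L) * (lam - 2 + 2 * ε i) ≤ (G J - G L) * ((1 + lam) * (2 / 3) * ε i) := by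
    nlinarith
  have h14 : lam - 2 + 2 * ε i ≤ (1 + lam) * (2 / 3) * ε i := le_of_mul_le_mul_left h13 hD
  nlinarith [hε0 i]

theorem B : S_B := by
  intro hplc K lam n a hM h2
  obtain ⟨i, p, hpK, hpi, hint⟩ := exB hplc K lam n a hM h2
  have h0 : 0 < lam := by linarith
  have hle : ∀ y ∈ K, (-(n i)) y ≤ lam := fun y hy => by
    rw [LinearMap.neg_apply]
    linarith [mc_ge hM i y hy]
  have hge : ∀ y ∈ K, -1 ≤ (-(n i)) y := fun y hy => by
    rw [LinearMap.neg_apply]
    linarith [hM.le i y hy]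
  have hN : (-(n i)) p = lam := by rw [LinearMap.neg_apply, hpi, neg_neg]
  have hS : (-(n i)) (-((1 / lam) • p)) = -1 := by
    rw [map_neg, map_smul, hN, smul_eq_mul]
    field_simp
  have hov : ∀ y ∈ K, (-(n i)) y = (-(n i)) p → Ov K (p - -((1 / lam) • p)) y := by
    intro y hy h3
    refine ⟨-(lam / (1 + lam)), ?_⟩
    have h4 : y + (-(lam / (1 + lam))) • (p - -((1 / lam) • p)) = y - p := by
      have h5 : (-(lam / (1 + lam))) • (p - -((1 / lam) • p)) = -p := by
        rw [sub_neg_eq_add]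
        have h6 : p + (1 / lam) • p = ((1 + lam) / lam) • p := by
          have h7 : ((1 + lam) / lam) = 1 + 1 / lam := by
            field_simp
            ring
          rw [h7, add_smul, one_smul]
        rw [h6, smul_smul]
        have h8 : -(lam / (1 + lam)) * ((1 + lam) / lam) = -1 := by
          have : 1 + lam ≠ 0 := by linarith
          field_simp
        rw [h8, neg_one_smul]
      rw [h5, sub_eq_add_neg]
    rw [h4]
    refine hint y hy ?_
    rw [hN, LinearMap.neg_apply] at h3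
    linarith
  refine ⟨-(n i), p, -((1 / lam) • p), 0, ?_⟩
  refine ⟨hpK, hM.cen p hpK, ?_, ?_, ?_, ?_, hM.int, ?_, Or.inr hov, ?_⟩
  · intro y hy
    rw [hN]
    exact hle y hy
  · intro y hy
    rw [hS]
    exact hge y hy
  · rw [hN, hS]
    linarith
  · refine ⟨1 / (1 + lam), lam / (1 + lam), by positivity, by positivity, ?_, ?_⟩
    · have : 1 + lam ≠ 0 := by linarith
      field_simp
    · rw [smul_neg, smul_smul]
      have h8 : lam / (1 + lam) * (1 / lam) = 1 / (1 + lam) := by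
        have : 1 + lam ≠ 0 := by linarith
        field_simp
      rw [h8, add_neg_cancel]
  · intro y hy
    have h3 := hM.cvx (hM.cen y hy) (interior_subset hM.int)
      (show (0 : ℝ) ≤ 10 / 31 * lam by positivity)
      (show (0 : ℝ) ≤ 1 - 10 / 31 * lam by linarith [hM.three]) (by ring)
    have h4 : (10 / 31 * lam) • -((1 / lam) • y) + (1 - 10 / 31 * lam) • (0 : V3) =
        0 - (10 / (31 : ℝ)) • (y - 0) := by
      rw [smul_zero, add_zero, zero_sub, sub_zero, smul_neg, smul_smul]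
      have h5 : 10 / 31 * lam * (1 / lam) = 10 / 31 := by field_simp
      rw [h5]
    rwa [h4] at h3
  · intro y hy h3 _
    exact hov y hy h3

end Pool.Agent.H179.TW

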