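import Pool.Agent.H221.TW.Stm

/-!
Project TW (helper179): two bichromatic arcs which do not touch have a hull of at least a half-turn
-/

set_option autoImplicit false

namespace Pool.Agent.H179.TW

open Pool.Agent.H332.HT (V2 V3 det P IP T C Full Good Bi)
open Pool.Agent.H165.HW (GB Par)
open Pool.Agent.H221.TW

/-- a linear functional which vanishes at two vectors with positive determinant is zero -/
theorem eq_zero_of_det (m : V2 →ₗ[ℝ] ℝ) (u v : V2) (h : 0 < det u v) (hu : m u = 0) (hv : m v = 0) :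
    m = 0 := by
  have key : ∀ w : V2, det u v • w = det w v • u + det u w • v := by
    intro w
    simp only [det]
    ext
    · simp only [Prod.smul_fst, Prod.fst_add, smul_eq_mul]
      ring
    · simp only [Prod.smul_snd, Prod.snd_add, smul_eq_mul]
      ring
  refine LinearMap.ext fun w => ?_
  have h1 := congrArg m (key w)
  rw [map_smul, map_add, map_smul, map_smul, hu, hv] at h1
  simp only [smul_eq_mul, mul_zero, add_zero] at h1
  rcases mul_eq_zero.1 h1 with h2 | h2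
  · exact absurd h2 h.ne'
  · exact h2

theorem zero_between (m : V2 →ₗ[ℝ] ℝ) (q : ℝ → V2) (hq : Continuous q) (a b s t : ℝ)
    (hs : a ≤ s) (hs' : s ≤ b) (ht : a ≤ t) (ht' : t ≤ b) (h1 : m (q s) ≤ 0) (h2 : 0 ≤ m (q t)) :
    ∃ u, a ≤ u ∧ u ≤ b ∧ m (q u) = 0 := by
  have hc : Continuous fun x => m (q x) := (LinearMap.continuous_of_finiteDimensional m).comp hq
  obtain ⟨u, hu, hu0⟩ := (isPreconnected_Icc (a := a) (b := b)).intermediate_value
    (show s ∈ Set.Icc a b from ⟨hs, hs'⟩) (show t ∈ Set.Icc a b from ⟨ht, ht'⟩) hc.continuousOn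
    (show (0 : ℝ) ∈ Set.Icc (m (q s)) (m (q t)) from ⟨h1, h2⟩)
  exact ⟨u, hu.1, hu.2, hu0⟩

theorem bic : S_bic := by
  intro K _ hsep q hq a b c d _ hbc _ hda h1 h2
  obtain ⟨⟨t1, h11, h12, h13⟩, ⟨t2, h21, h22, h23⟩⟩ := h1
  obtain ⟨⟨t3, h31, h32, h33⟩, ⟨t4, h41, h42, h43⟩⟩ := h2
  rcases hsep with ⟨m, hm, htop, hbot⟩ | htop
  · obtain ⟨u, hu1, hu2, hu3⟩ := zero_between m q hq.cont a b t1 t2 h11 h12 h21 h22
      (htop _ h13 (hq.nint t1)) (hbot _ h23 (hq.nint t2))
    obtain ⟨v, hv1, hv2, hv3⟩ := zero_between m q hq.cont c d t3 t4 h31 h32 h41 h42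
      (htop _ h33 (hq.nint t3)) (hbot _ h43 (hq.nint t4))
    exact hm (eq_zero_of_det m (q u) (q v) (hq.pos u v (by linarith) (by linarith)) hu3 hv3)
  · exact hq.nint t1 (htop _ h13)

end Pool.Agent.H179.TW
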