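import Pool.Agent.H768.PL.Cfg
import Pool.Agent.H265.TW.FC
import Pool.Agent.H490.TW.PB

/-!
Project TW (helper179): the geometric part `S_geo` of the planar lemma (for helper768's case tree)
-/

set_option autoImplicit false

namespace Pool.Agent.H179.TW.Geo

open Pool.Agent.H332.HT (V2 det)
open Pool.Agent.H221.TW (ChainG)
open Pool.Agent.H768.PL
open Pool.Agent.H490.TW.PB (Hyp)
open Pool.Agent.H265.TW (Dat)

theorem geo : S_geo := by
  intro Q hcv hcp h0 hcen th p hch
  have h : Hyp Q th p := ⟨hcv, hcp, h0, hcen, hch⟩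
  have d : Dat Q th p := ⟨hcv, hcp, h0, hcen, hch⟩
  have sub : ∀ i j a b, i ≤ a → a < b → b ≤ j → j < i + 10 → 0 < det (p i) (p j) →
      0 < det (p a) (p b) := fun i j a b h1 h2 h3 h4 h5 =>
    Pool.Agent.H490.TW.PB.pos_mono h h1 h2 h3 h4 h5
  have ang : ∀ i j, i < j → j < i + 10 → 0 < det (p i) (p j) → th j < th i + Real.pi :=
    fun i j h1 h2 h3 => (Pool.Agent.H490.TW.PB.pos_iff h h1 h2).1 h3
  refine
    { anti := fun i j => Pool.Agent.H490.TW.PB.det_swap _ _
      per := fun i j => by
        show det (p (i + 10)) (p j) = det (p i) (p j)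
        rw [hch.pper]
      pl := fun a b c d => by
        show det (p a) (p c) * det (p b) (p d) =
          det (p a) (p b) * det (p c) (p d) + det (p a) (p d) * det (p b) (p c)
        simp only [det]
        ring
      ne := fun i j h1 h2 => by
        show det (p i) (p j) ≠ 0
        rcases Pool.Agent.H490.TW.PB.sgn h h1 h2 with h3 | h3
        · exact h3.ne
        · exact h3.ne'
      sub := sub
      lab := fun i j h1 h2 => ?_
      fF := fun i j a b e h1 h2 h3 h4 h5 h6 h7 h8 => ?_
      fC := fun i j a e g h1 h2 h3 h4 h5 h6 h7 => ?_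
      fG := fun i j c a b h1 h2 h3 h4 h5 h6 h7 h8 => ?_
      fK := fun i j g c b h1 h2 h3 h4 h5 h6 h7 => ?_
      ch := fun i h1 h2 => ?_ }
  · by_cases h3 : 0 < det (p i) (p (j + 1))
    · rcases lt_max_iff.1 (hch.pair i j h1 h2 (ang i (j + 1) (by omega) (by omega) h3)) with h4 | h4
      · exact Or.inr fun _ => h4
      · exact Or.inl fun _ => h4
    · exact Or.inl fun h4 => absurd h4 h3
  · exact d.F h3 (by omega) h4 h5 h6 (ang a e (by omega) h7 h8)
      (h2 (sub a e i (j + 1) h3 (by omega) h6 h7 h8))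
  · exact d.C h3 (by omega) h4 h5 (ang a g (by omega) h6 h7)
      (h2 (sub a g i (j + 1) h3 (by omega) (by omega) h6 h7))
  · exact d.G h3 (by omega) h5 h4 h6 (ang c b (by omega) h7 h8)
      (h2 (sub c b i (j + 1) h3 (by omega) h6 h7 h8))
  · exact d.K h4 (by omega) h5 h3 (ang g b (by omega) h6 h7)
      (h2 (sub g b i (j + 1) (by omega) (by omega) h5 h6 h7))
  · exact hch.ch3 i (ang i (i + 3) (by omega) (by omega) h1)
      (ang (i + 2) (i + 5) (by omega) (by omega) h2)

end Pool.Agent.H179.TW.Geo
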