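import Pool.Agent.H221.TW.StmG

/-!
Project TW (helper179): the third alternative of the three-arc lemma in multiplicative form
(rules of helper54, note 401, and of helper221)
-/

set_option autoImplicit false

namespace Pool.Agent.H179.TW.NT

open Pool.Agent.H332.HT (V2 det)
open Pool.Agent.H221.TW (ChainG)

section real
variable {A B U V P Q c : ℝ}

/-- the basic inequality -/
theorem base (hU : 0 < U) (hB : 0 < B) (hpl : A * B = P * Q + U * V) (hT : A + B < c * U + V)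
    (hA : A < U) : P * Q + U * A < c * U ^ 2 := by
  nlinarith [mul_lt_mul_of_pos_left hT hU, mul_pos hB (sub_pos.2 hA)]

/-- the mirror image -/
theorem base' (hU : 0 < U) (hA : 0 < A) (hpl : A * B = P * Q + U * V) (hT : A + B < c * U + V)
    (hB : B < U) : P * Q + U * B < c * U ^ 2 := by
  nlinarith [mul_lt_mul_of_pos_left hT hU, mul_pos hA (sub_pos.2 hB)]

theorem f1 (hU : 0 < U) (hA : 0 < A) (h : P * Q + U * A < c * U ^ 2) : P * Q < c * U ^ 2 := by
  nlinarith [mul_pos hU hA]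

theorem f2 (hU : 0 < U) (hA : 0 < A) (hP : 0 < P) (hQ : 0 < Q) (h : P * Q + U * A < c * U ^ 2) :
    4 * (P * Q * A) < c ^ 2 * U ^ 3 := by
  have h1 : 0 < P * Q + U * A := by positivity
  have h2 : (P * Q + U * A) ^ 2 < (c * U ^ 2) ^ 2 := pow_lt_pow_left₀ h h1.le (by norm_num)
  have h3 : 4 * (P * Q) * (U * A) ≤ (P * Q + U * A) ^ 2 := by nlinarith [sq_nonneg (P * Q - U * A)]
  have h4 : U * (4 * (P * Q * A)) < U * (c ^ 2 * U ^ 3) := by nlinarith
  exact lt_of_mul_lt_mul_left h4 hU.le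

/-- weighted arithmetic-geometric mean with weights 2/3, 1/3 -/
theorem amgm {x y : ℝ} (hx : 0 ≤ x) (hy : 0 ≤ y) : 27 / 4 * (x ^ 2 * y) ≤ (x + y) ^ 3 := by
  nlinarith [mul_nonneg (sq_nonneg (x - 2 * y)) (by positivity : 0 ≤ x + y / 4)]

theorem f3 (hU : 0 < U) (hA : 0 < A) (hP : 0 < P) (hQ : 0 < Q) (h : P * Q + U * A < c * U ^ 2) :
    27 / 4 * ((P * Q) ^ 2 * A) < c ^ 3 * U ^ 5 := by
  have h1 : 0 < P * Q + U * A := by positivity
  have h2 : (P * Q + U * A) ^ 3 < (c * U ^ 2) ^ 3 := pow_lt_pow_left₀ h h1.le (by norm_num)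
  have h3 := amgm (x := P * Q) (y := U * A) (by positivity) (by positivity)
  have h4 : U * (27 / 4 * ((P * Q) ^ 2 * A)) < U * (c ^ 3 * U ^ 5) := by nlinarith
  exact lt_of_mul_lt_mul_left h4 hU.le

theorem f4 (hU : 0 < U) (hA : 0 < A) (hP : 0 < P) (hQ : 0 < Q) (h : P * Q + U * A < c * U ^ 2) :
    27 / 4 * (P * Q * A ^ 2) < c ^ 3 * U ^ 4 := by
  have h1 : 0 < P * Q + U * A := by positivity
  have h2 : (P * Q + U * A) ^ 3 < (c * U ^ 2) ^ 3 := pow_lt_pow_left₀ h h1.le (by norm_num)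
  have h3 := amgm (x := U * A) (y := P * Q) (by positivity) (by positivity)
  rw [add_comm] at h3
  have h4 : U ^ 2 * (27 / 4 * (P * Q * A ^ 2)) < U ^ 2 * (c ^ 3 * U ^ 4) := by nlinarith
  exact lt_of_mul_lt_mul_left h4 (by positivity)

/-! ### the alternative with `V < 0` -/

theorem g1 (hB : 0 < B) (hV : V < 0) (hT : A + B < c * U + V) : A < c * U := by linarith
theorem g2 (hA : 0 < A) (hV : V < 0) (hT : A + B < c * U + V) : B < c * U := by linarith
theorem g3 (hA : 0 < A) (hB : 0 < B) (hT : A + B < c * U + V) : -V < c * U := by linarith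

theorem g4 (hA : 0 < A) (hB : 0 < B) (hV : V < 0) (hT : A + B < c * U + V) :
    4 * (A * B) < (c * U) ^ 2 := by
  have h2 : (A + B) ^ 2 < (c * U) ^ 2 := pow_lt_pow_left₀ (by linarith) (by positivity) (by norm_num)
  nlinarith [sq_nonneg (A - B)]

theorem g5 (hA : 0 < A) (hB : 0 < B) (hT : A + B < c * U + V) (hV : V < 0) :
    4 * (A * -V) < (c * U) ^ 2 := by
  have h2 : (A + -V) ^ 2 < (c * U) ^ 2 :=
    pow_lt_pow_left₀ (by linarith) (by linarith) (by norm_num)
  nlinarith [sq_nonneg (A + V)]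

theorem g6 (hA : 0 < A) (hB : 0 < B) (hT : A + B < c * U + V) (hV : V < 0) :
    4 * (B * -V) < (c * U) ^ 2 := by
  have h2 : (B + -V) ^ 2 < (c * U) ^ 2 :=
    pow_lt_pow_left₀ (by linarith) (by linarith) (by norm_num)
  nlinarith [sq_nonneg (B + V)]

theorem amgm3 {x y z : ℝ} (hx : 0 ≤ x) (hy : 0 ≤ y) (hz : 0 ≤ z) :
    27 * (x * y * z) ≤ (x + y + z) ^ 3 := by
  nlinarith [mul_nonneg hx (sq_nonneg (y - z)), mul_nonneg hy (sq_nonneg (x - z)),
    mul_nonneg hz (sq_nonneg (x - y)), mul_nonneg (add_nonneg (add_nonneg hx hy) hz)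
      (add_nonneg (add_nonneg (sq_nonneg (x - y)) (sq_nonneg (y - z))) (sq_nonneg (x - z)))]

theorem g7 (hA : 0 < A) (hB : 0 < B) (hT : A + B < c * U + V) (hV : V < 0) :
    27 * (A * B * -V) < (c * U) ^ 3 := by
  have h2 : (A + B + -V) ^ 3 < (c * U) ^ 3 :=
    pow_lt_pow_left₀ (by linarith) (by linarith) (by norm_num)
  have h3 := amgm3 hA.le hB.le (neg_pos.2 hV).le
  linarith

/-! ### additive relations: branching -/

/-- `X = Y + Z`, `Z ≤ Y` implies `X ≤ 2 Y` -/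
theorem two {X Y Z : ℝ} (h : X ≤ Y + Z) (hZ : Z ≤ Y) : X ≤ 2 * Y := by linarith

/-- general branching of `X ≤ Y + Z` -/
theorem frac {X Y Z t : ℝ} (h : X ≤ Y + Z) : t * X ≤ Y ∨ (1 - t) * X ≤ Z := by
  by_contra hc
  push Not at hc
  nlinarith [hc.1, hc.2]

/-- additive relation `X = Y + Z` with a lower bound of `Z`: `X ≥ w * Y` -/
theorem low {X Y Z t : ℝ} (h : X = Y + Z) (hZ : t * Y ≤ Z) : (1 + t) * Y ≤ X := by linarith

/-- additive relation `X = Y + Z` with an upper bound of `Z`: `X ≤ w * Y` -/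
theorem upp {X Y Z t : ℝ} (h : X = Y + Z) (hZ : Z ≤ t * Y) : X ≤ (1 + t) * Y := by linarith

end real

end Pool.Agent.H179.TW.NT
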