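import Pool.Agent.H221.TW.Stm
import Pool.Agent.H179.HW.Red

/-!
Project TW (helper179): basic facts, reduction to chains, translation, and translates in Euclidean
space.
-/

set_option autoImplicit false

namespace Pool.Agent.H179.TW

open Pool.Agent.H332.HT (V2 V3 det P IP T C Full Good Bi)
open Pool.Agent.H165.HW (GB Par)
open Pool.Agent.H221.TW

theorem bas : S_bas := fun K hK =>
  ⟨hK.cpt.image continuous_fst, Pool.Agent.H179.HW.cvxP hK, Pool.Agent.H179.HW.zeroIP hK,
    fun p hp => Pool.Agent.H179.HW.fib hK p hp, Pool.Agent.H179.HW.image_int K⟩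

theorem par : S_par := fun K hK => by
  obtain ⟨r, q, h1, h2, h3, h4⟩ := Pool.Agent.H179.HW.par hK
  exact ⟨q, r, h1, h2, h3, h4⟩

theorem opn : S_opn := fun _ hK _ hq a b hab h =>
  Pool.Agent.H179.HW.good_open hK hq a b hab h

theorem pt : S_pt := fun _ hK _ hq t h => Pool.Agent.H179.HW.good_pt hK hq t h

theorem red : S_red := fun _ hK _ hq hful t₀ hno =>
  Pool.Agent.H179.HW.reduction hK hq 10 (by norm_num) hful t₀ hno

theorem tra : S_tra := by
  rintro K o ⟨L, hL⟩
  have hint : interior ((fun x : V3 => x - o) '' K) = (fun x : V3 => x - o) '' interior K :=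
    ((Homeomorph.subRight o).image_interior K).symm
  refine ⟨L, fun x hx hxi => ?_⟩
  obtain ⟨i, t, ht, hti⟩ := hL (x - o) ⟨x, hx, rfl⟩ (by
    rw [hint]
    rintro ⟨y, hy, hyx⟩
    have : y = x := sub_left_injective hyx
    exact hxi (this ▸ hy))
  refine ⟨i, t, ht, ?_⟩
  rw [hint] at hti
  obtain ⟨y, hy, hyx⟩ := hti
  have hyx' : y - o = x - o + t • L i := hyx
  have : y = x + t • L i := by
    have h1 : y = (x - o + t • L i) + o := by rw [← hyx']; abel
    rw [h1]; abel
  exact this ▸ hy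

/-- illumination implies covering by translates of the interior -/
theorem cover {E : Type*} [NormedAddCommGroup E] [NormedSpace ℝ E] (K : Set E) (hcv : Convex ℝ K)
    (hcp : IsCompact K) (m : ℕ) (d : Fin (m + 1) → E)
    (hd : ∀ x ∈ K, x ∉ interior K → ∃ i, ∃ t : ℝ, 0 < t ∧ x + t • d i ∈ interior K) :
    ∃ T : Finset E, T.card ≤ m + 1 ∧ K ⊆ ⋃ t ∈ T, (fun x => t + x) '' interior K := by
  classical
  -- every point is lit
  have hd' : ∀ x ∈ K, ∃ i, ∃ t : ℝ, 0 < t ∧ x + t • d i ∈ interior K := by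
    intro x hx
    by_cases hxi : x ∈ interior K
    · have hc : Continuous (fun t : ℝ => x + t • d 0) := by fun_prop
      have ho : IsOpen ((fun t : ℝ => x + t • d 0) ⁻¹' interior K) := isOpen_interior.preimage hc
      obtain ⟨δ, hδ, hb⟩ := Metric.isOpen_iff.1 ho 0 (by
        show x + (0 : ℝ) • d 0 ∈ interior K
        rw [zero_smul, add_zero]
        exact hxi)
      refine ⟨0, δ / 2, by positivity, hb ?_⟩
      rw [Metric.mem_ball, dist_zero_right, Real.norm_eq_abs, abs_of_pos (by positivity)]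
      linarith
    · exact hd x hx hxi
  -- shorter steps are also in the interior
  have hshort : ∀ x ∈ K, ∀ (v : E) (t s : ℝ), 0 < s → s ≤ t → x + t • v ∈ interior K →
      x + s • v ∈ interior K := by
    intro x hx v t s hs hst hv
    have ht : 0 < t := lt_of_lt_of_le hs hst
    have h1 := hcv.combo_interior_self_mem_interior hv hx (a := s / t) (b := 1 - s / t)
      (by positivity) (by rw [sub_nonneg, div_le_one ht]; exact hst) (by ring)
    have h2 : (s / t) • (x + t • v) + (1 - s / t) • x = x + s • v := by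
      rw [smul_add, smul_smul, div_mul_cancel₀ _ ht.ne', sub_smul, one_smul]
      abel
    rwa [h2] at h1
  let U : ℕ → Set E := fun n => {x | ∃ i, x + (1 / ((n : ℝ) + 1)) • d i ∈ interior K}
  have hUo : ∀ n, IsOpen (U n) := by
    intro n
    have e : U n = ⋃ i, (fun x : E => x + (1 / ((n : ℝ) + 1)) • d i) ⁻¹' interior K := by
      ext x
      simp [U]
    rw [e]
    refine isOpen_iUnion fun i => isOpen_interior.preimage ?_
    fun_prop
  have hUc : K ⊆ ⋃ n, U n := by
    intro x hx
    obtain ⟨i, t, ht, hi⟩ := hd' x hx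
    obtain ⟨n, hn⟩ := exists_nat_one_div_lt ht
    exact Set.mem_iUnion.2 ⟨n, i, hshort x hx _ _ _ (by positivity) hn.le hi⟩
  obtain ⟨F, hF⟩ := hcp.elim_finite_subcover U hUo hUc
  obtain ⟨n, hn⟩ : ∃ n : ℕ, ∀ k ∈ F, k ≤ n := ⟨F.sup id, fun k hk => Finset.le_sup (f := id) hk⟩
  refine ⟨Finset.univ.image fun i : Fin (m + 1) => -((1 / ((n : ℝ) + 1)) • d i),
    Finset.card_image_le.trans (by simp), ?_⟩
  intro x hx
  obtain ⟨k, hk, i, hi⟩ : ∃ k, k ∈ F ∧ x ∈ U k := by
    have := hF hx
    simp only [Set.mem_iUnion, exists_prop] at this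
    exact this
  have hkn : ((k : ℕ) : ℝ) ≤ n := by exact_mod_cast hn k hk
  have h3 := hshort x hx (d i) (1 / ((k : ℝ) + 1)) (1 / ((n : ℝ) + 1)) (by positivity)
    (one_div_le_one_div_of_le (by positivity) (by linarith)) hi
  simp only [Set.mem_iUnion]
  refine ⟨_, Finset.mem_image_of_mem _ (Finset.mem_univ i), x + (1 / ((n : ℝ) + 1)) • d i, h3, ?_⟩
  simp

theorem fin : S_fin := by
  intro hmain K hcv hcp hne
  have hfr : Module.finrank ℝ (EuclideanSpace ℝ (Fin 3)) = Module.finrank ℝ V3 := by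
    simp [V3, V2]
  let e : EuclideanSpace ℝ (Fin 3) ≃L[ℝ] V3 := ContinuousLinearEquiv.ofFinrankEq hfr
  have hint : interior (e '' K) = e '' interior K := (e.toHomeomorph.image_interior K).symm
  obtain ⟨L, hL⟩ := hmain (e '' K) (hcp.image e.continuous)
    (hcv.linear_image e.toLinearEquiv.toLinearMap) (by rw [hint]; exact hne.image e)
  refine cover K hcv hcp 11 (fun i => e.symm (L i)) ?_
  intro x hx hxi
  obtain ⟨i, t, ht, hi⟩ := hL (e x) ⟨x, hx, rfl⟩ (by
    rw [hint]
    rintro ⟨y, hy, hyx⟩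
    exact hxi (e.injective hyx ▸ hy))
  refine ⟨i, t, ht, ?_⟩
  rw [hint] at hi
  obtain ⟨y, hy, hyx⟩ := hi
  have h1 : y = x + t • e.symm (L i) := by
    apply e.injective
    rw [hyx, map_add, map_smul, e.apply_symm_apply]
  exact h1 ▸ hy

end Pool.Agent.H179.TW
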